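import Pool.Agent.Helper667_AS.Diag

/-!
# MP_12a1af_nt: the numbers of almost all scales can be covered with `r_A(n) = (log n) ^ o(1)`

`rep A n` is the number `r_A(n)` of ordered pairs `(a, b) ∈ A × A` with `a + b = n`. The scale `k`
is *missed* by `A` if some number of the dyadic interval `[2 ^ k, 2 ^ (k + 1))` is not a sum of two
elements of `A`, and `missed A K` is the number of the missed scales below `K`. So `A` is an
asymptotic basis of order 2 if and only if `missed A K` is bounded.

1. There is a set `A` such that `r_A(n) = O((log n) ^ ε)` for **all** `n` and every `ε > 0`, and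
   `A + A` contains the whole interval `[2 ^ k, 2 ^ (k + 1))` for all `k` outside a set of density
   zero.
2. Let `0 < δ < 1` and `η > 0`. There are `A` and `C` with

     `r_A(n) ≤ C (log n) ^ (δ + η)` for all `n ≥ 3`,   `missed A K ≤ C K ^ (1 - δ)` for all `K`.

For asymptotic bases (`missed A K` bounded) the smallest known representation functions are of the
order `log n / log log n` (`SparseBasis`, starting files): the blocks of different scales are
independent, and the maximum of `n` Poisson-like variables is of this size. Part 2 joins this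
(`δ = 1`) to part 1 (`δ = 0`). If the conjecture of Erdős and Turán is true then `(log n) ^ o(1)`
cannot be replaced by `O(1)` when no scale at all is missed; here only very few scales are missed.

Construction, by induction.  Let `B` be a set already constructed, and let `S` be one of the random
blocks of `Pool.Agent.H125R2.ET` for a prime `p`: `S` consists of about `p ^ 4` numbers of the size
of `m = p ^ 8`, `S + S` contains `[11 m, 12 m)`, and `r_S` is bounded. The *wide block*
`W = S + m (B ∩ [0, 2 ^ u))` covers the numbers `n` with `n / m < 2 ^ u` for which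
`⌊n / m⌋ - 11 ∈ B + B`, and `r_W` is at most a constant times the maximum of `r_B` up to
`2 ^ (u + 1)`, where `u` is small compared with `log m`.  The set `A` is the union of wide blocks
with `log₂ m` near `8 x ^ d`, `x = x_0, x_0 + 1, …`, the end of a wide block and the beginning of
the next one being separated by a gap of `8 x ^ f` scales.  Because of the gaps the hits between
different wide blocks have exponential moments with a parameter of the size `x ^ f`, so there are
only `O(x ^ (d - f))` of them for any `n`: with `d - f = q + 1` the set `A` has exponent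
`(q + 1) / d`, if `B` has the exponent `(q + 1) / (d - 1)`.
For part 1 the sets `B` are taken further and further from the sequence of sets so obtained.
-/

set_option autoImplicit false

open Filter Topology

namespace Pool.Agent.Results.MP_12a1af_nt.AlmostAllScales

/-- `rep A n = r_A(n)`: the number of ordered pairs `(a, b)` of elements of `A` with `a + b = n` -/
noncomputable def rep (A : Set ℕ) (n : ℕ) : ℕ :=
  {x : ℕ × ℕ | x.1 ∈ A ∧ x.2 ∈ A ∧ x.1 + x.2 = n}.ncard

/-- `missed A K`: the number of the `k < K` such that some `n` with `2 ^ k ≤ n < 2 ^ (k + 1)` is not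
a sum of two elements of `A` -/
noncomputable def missed (A : Set ℕ) (K : ℕ) : ℕ :=
  {k : ℕ | k < K ∧ ∃ n, 2 ^ k ≤ n ∧ n < 2 ^ (k + 1) ∧ ¬ ∃ a ∈ A, ∃ b ∈ A, a + b = n}.ncard

theorem missed_eq (A : Set ℕ) (K : ℕ) : missed A K = Pool.Agent.Helper667_AS.bc A K := by
  classical
  unfold missed Pool.Agent.Helper667_AS.bc
  rw [← Set.ncard_coe_finset]
  congr 1
  ext k
  rw [Finset.mem_coe, Finset.mem_filter, Finset.mem_range]
  rfl

theorem log_bounds {n : ℕ} (hn : 3 ≤ n) :
    1 ≤ Real.log n ∧ ((Nat.log 2 n + 1 : ℕ) : ℝ) ≤ 3 * Real.log n := by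
  have h1 : 1 < Real.log n := Pool.Agent.H125R2.ET.T22.one_lt_log hn
  refine ⟨h1.le, ?_⟩
  have h2 : 2 ^ Nat.log 2 n ≤ n := Nat.pow_log_le_self 2 (by omega)
  have h3 : ((2 : ℝ)) ^ Nat.log 2 n ≤ n := by exact_mod_cast h2
  have h4 : Real.log ((2 : ℝ) ^ Nat.log 2 n) ≤ Real.log n := Real.log_le_log (by positivity) h3
  rw [Real.log_pow] at h4
  have h5 := Real.log_two_gt_d9
  have h6 : (0 : ℝ) ≤ (Nat.log 2 n : ℝ) := Nat.cast_nonneg _
  push_cast
  nlinarith

/-- from `x ^ d ≤ y` to `x ≤ y ^ (1 / d)` -/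
theorem root_le {x y : ℝ} {d : ℕ} (hd : d ≠ 0) (hx : 0 ≤ x) (h : x ^ d ≤ y) :
    x ≤ y ^ (1 / (d : ℝ)) := by
  have h1 : x = (x ^ d) ^ (1 / (d : ℝ)) := by
    rw [one_div, Real.pow_rpow_inv_natCast hx hd]
  rw [h1]
  exact Real.rpow_le_rpow (by positivity) h (by positivity)

theorem result :
    (∃ A : Set ℕ,
      (∀ ε : ℝ, 0 < ε → ∃ C : ℝ, ∀ n : ℕ, 3 ≤ n → (rep A n : ℝ) ≤ C * Real.log n ^ ε) ∧
      Tendsto (fun K : ℕ => (missed A K : ℝ) / K) atTop (𝓝 0)) ∧
    (∀ δ η : ℝ, 0 < δ → δ < 1 → 0 < η → ∃ (A : Set ℕ) (C : ℝ),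
      (∀ n : ℕ, 3 ≤ n → (rep A n : ℝ) ≤ C * Real.log n ^ (δ + η)) ∧
      (∀ K : ℕ, (missed A K : ℝ) ≤ C * (K : ℝ) ^ (1 - δ))) := by
  constructor
  · obtain ⟨A, h1, h2⟩ := Pool.Agent.Helper667_AS.diag
    refine ⟨A, ?_, ?_⟩
    · intro ε hε
      obtain ⟨b, hb⟩ := exists_nat_gt (1 / ε)
      have hb0 : 0 < (b : ℝ) := lt_trans (by positivity) hb
      have hb1 : 1 ≤ b := by exact_mod_cast hb0
      have hbε : 1 / (b : ℝ) ≤ ε := by
        rw [div_le_iff₀ hb0]
        rw [div_lt_iff₀ hε] at hb
        linarith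
      obtain ⟨c, hc⟩ := h1 b hb1
      refine ⟨((c : ℝ) * 3) ^ (1 / (b : ℝ)), fun n hn => ?_⟩
      obtain ⟨g1, g2⟩ := log_bounds hn
      have e1 : ((rep A n : ℕ) : ℝ) ^ b ≤ (c : ℝ) * 3 * Real.log n := by
        have f1 : ((rep A n : ℕ) : ℝ) ^ b ≤ (c : ℝ) * ((Nat.log 2 n + 1 : ℕ) : ℝ) := by
          exact_mod_cast hc n
        have f2 : (c : ℝ) * ((Nat.log 2 n + 1 : ℕ) : ℝ) ≤ c * (3 * Real.log n) :=
          mul_le_mul_of_nonneg_left g2 (Nat.cast_nonneg _)
        linarith
      have e2 := root_le (by omega) (Nat.cast_nonneg _) e1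
      refine e2.trans ?_
      rw [Real.mul_rpow (by positivity) (by linarith)]
      refine mul_le_mul_of_nonneg_left ?_ (by positivity)
      exact Real.rpow_le_rpow_of_exponent_le g1 hbε
    · rw [Metric.tendsto_atTop]
      intro e he
      obtain ⟨N, hN⟩ := exists_nat_gt (1 / e)
      have hN0 : 0 < (N : ℝ) := lt_trans (by positivity) hN
      obtain ⟨K1, hK1⟩ := h2 N
      refine ⟨K1 + 1, fun K hK => ?_⟩
      have hK0 : (0 : ℝ) < K := by exact_mod_cast (by omega : 0 < K)
      have g1 : (N : ℝ) * (missed A K : ℝ) ≤ K := by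
        rw [missed_eq]
        exact_mod_cast hK1 K (by omega)
      rw [Real.dist_eq, sub_zero, abs_of_nonneg (div_nonneg (Nat.cast_nonneg _) hK0.le),
        div_lt_iff₀ hK0]
      rw [div_lt_iff₀ he] at hN
      by_contra hcon
      push Not at hcon
      have g2 : (N : ℝ) * (e * K) ≤ N * (missed A K : ℝ) :=
        mul_le_mul_of_nonneg_left hcon hN0.le
      have g3 : (K : ℝ) < N * (e * K) := by
        have : 1 * (K : ℝ) < (N * e) * K := mul_lt_mul_of_pos_right hN hK0
        linarith
      linarith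
  · intro δ η hδ hδ1 hη
    -- the parameters
    obtain ⟨d, hd⟩ := exists_nat_gt (2 / η + 1 / (1 - δ))
    have h1δ : 0 < 1 - δ := by linarith
    have hd1 : 2 / η < d := by
      have : 0 < 1 / (1 - δ) := by positivity
      linarith
    have hd2 : 1 / (1 - δ) < d := by
      have : 0 < 2 / η := by positivity
      linarith
    have hd0 : 0 < (d : ℝ) := lt_trans (by positivity) hd1
    have hdn : d ≠ 0 := by
      rintro rfl
      simp at hd0
    set q : ℕ := ⌈δ * d⌉₊ with hq
    have hq1 : δ * d ≤ q := Nat.le_ceil _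
    have hq2 : (q : ℝ) < δ * d + 1 := Nat.ceil_lt_add_one (by positivity)
    have hqd : q < d := by
      rw [div_lt_iff₀ h1δ] at hd2
      have : (q : ℝ) < d := by nlinarith
      exact_mod_cast this
    obtain ⟨f, hf⟩ : ∃ f, d = f + q := ⟨d - q, by omega⟩
    have hf1 : 1 ≤ f := by omega
    obtain ⟨A, c, hA⟩ := Pool.Agent.Helper667_AS.good_exists q f hf1
    set c1 : ℝ := (((c : ℝ) + 1) * 3 ^ (q + 1)) ^ (1 / (d : ℝ)) with hc1
    have hc10 : 0 ≤ c1 := by positivity
    refine ⟨A, c1, ?_, ?_⟩
    · intro n hn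
      obtain ⟨g1, g2⟩ := log_bounds hn
      have e1 : ((rep A n : ℕ) : ℝ) ^ d ≤ (((c : ℝ) + 1) * 3 ^ (q + 1)) * Real.log n ^ (q + 1) := by
        have f1 : ((rep A n : ℕ) : ℝ) ^ d ≤ (c : ℝ) * ((Nat.log 2 n + 1 : ℕ) : ℝ) ^ (q + 1) := by
          rw [hf]
          exact_mod_cast hA.rep n
        have f2 : ((Nat.log 2 n + 1 : ℕ) : ℝ) ^ (q + 1) ≤ (3 * Real.log n) ^ (q + 1) :=
          pow_le_pow_left₀ (Nat.cast_nonneg _) g2 _
        calc ((rep A n : ℕ) : ℝ) ^ d ≤ (c : ℝ) * ((Nat.log 2 n + 1 : ℕ) : ℝ) ^ (q + 1) := f1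
          _ ≤ ((c : ℝ) + 1) * (3 * Real.log n) ^ (q + 1) :=
              mul_le_mul (by linarith) f2 (by positivity) (by positivity)
          _ = (((c : ℝ) + 1) * 3 ^ (q + 1)) * Real.log n ^ (q + 1) := by rw [mul_pow]; ring
      have e2 := root_le hdn (Nat.cast_nonneg _) e1
      refine e2.trans ?_
      have hL0 : (0 : ℝ) ≤ Real.log n := by linarith
      rw [Real.mul_rpow (by positivity) (by positivity)]
      refine mul_le_mul_of_nonneg_left ?_ (by positivity)
      rw [← Real.rpow_natCast, ← Real.rpow_mul hL0]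
      refine Real.rpow_le_rpow_of_exponent_le g1 ?_
      rw [mul_one_div, div_le_iff₀ hd0]
      have e3 : 2 < η * d := by
        rw [div_lt_iff₀ hη] at hd1
        linarith
      push_cast
      nlinarith
    · intro K
      rw [missed_eq]
      have e1 : ((Pool.Agent.Helper667_AS.bc A K : ℕ) : ℝ) ^ d ≤
          (((c : ℝ) + 1) * 3 ^ (q + 1)) * (K : ℝ) ^ f := by
        have f1 : ((Pool.Agent.Helper667_AS.bc A K : ℕ) : ℝ) ^ d ≤ (c : ℝ) * (K : ℝ) ^ f := by
          rw [hf]
          exact_mod_cast hA.bad K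
        have f2 : (1 : ℝ) ≤ 3 ^ (q + 1) := one_le_pow₀ (by norm_num)
        have f3 : (c : ℝ) ≤ ((c : ℝ) + 1) * 3 ^ (q + 1) := by
          have : (0 : ℝ) ≤ c := Nat.cast_nonneg _
          nlinarith
        exact f1.trans (mul_le_mul_of_nonneg_right f3 (by positivity))
      rcases Nat.eq_zero_or_pos K with h0 | h0
      · have : Pool.Agent.Helper667_AS.bc A K = 0 := by
          have := Pool.Agent.Helper667_AS.bc_le A K
          omega
        rw [this, Nat.cast_zero]
        positivity
      · have hK1 : (1 : ℝ) ≤ K := by exact_mod_cast h0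
        have e2 := root_le hdn (Nat.cast_nonneg _) e1
        refine e2.trans ?_
        rw [Real.mul_rpow (by positivity) (by positivity)]
        refine mul_le_mul_of_nonneg_left ?_ (by positivity)
        rw [← Real.rpow_natCast, ← Real.rpow_mul (by positivity)]
        refine Real.rpow_le_rpow_of_exponent_le hK1 ?_
        rw [mul_one_div, div_le_iff₀ hd0]
        have e3 : (d : ℝ) = f + q := by exact_mod_cast hf
        nlinarith

end Pool.Agent.Results.MP_12a1af_nt.AlmostAllScales
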