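import Pool.Agent.H189.Q.Fin

/-!
# The Erdős–Turán problem (MP_12a1af_nt): elements near quadratic sequences, at a single scale

`rep A s` is the number `r_A(s)` of ordered pairs `(a, b) ∈ A × A` with `a + b = s`, and
`psi x = log x / log log x`.

1. There is an `x₀` such that for all `x ≥ x₀` the following holds for every set `A`. Take up to
   `exp (psi x / 2000)` sequences `α n² + γ` with real `α ≥ exp (-psi x / 2000)`, `|γ| ≤ x`. If at
   least `√x exp (-psi x / 2000)` elements `a ≤ x` of `A` are within `exp (psi x / 2000)` of a term of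
   one of these sequences, then `r_A(s) ≥ exp (psi x / 2000)` for some `s ≤ 2 x`.
2. If this happens for infinitely many `x` (the sequences may depend on `x`), then
   `r_A(s) ≥ exp (psi s / 4000)` for infinitely many `s`.
3. In particular let `F` be a fixed finite set of pairs `(α, γ)`, `α > 0`, and let `A` be an infinite set
   such that every `a ∈ A` is within `exp (psi a / 4000)` of some `α n² + γ`. If
   `a_n ≤ n² exp (psi n / 4000)` for infinitely many `n` (for instance under the hypothesis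
   `a_n ≤ C n²` of Q2), then `r_A(s) ≥ exp (psi s / 4000)` for infinitely many `s`.
4. If `r_A` is bounded, then for all large `x` and all `α ≥ exp (-psi x / 2000)`, `|γ| ≤ x` fewer than
   `√x exp (-psi x / 2000)` elements `a ≤ x` of `A` are within `exp (psi x / 2000)` of the sequence
   `α n² + γ`. So a counterexample to Q1 or to Q2 is almost disjoint from all quadratic sequences.

All bounds are sharp up to the constants, since the number of representations of `s` as a sum of two
squares is at most `exp (C psi s)`, and this is attained.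

Method: reverse hypercontractivity. Let `Q` be a product of `m ≍ psi x` primes `p ≡ 1 (mod 4)`. For
functions on `ℤ/Q`, a product of finite probability spaces, and bijections `σ` of the factors one has
`E f(X) g(Y) ≥ (E √f)² (E √g)²`, where independently for each `p` the coordinate `Y_p` is `σ_p(X_p)`
with probability `1/4` and independent of `X` otherwise. With `σ_p(n) = ± i n`, `i² = -1`, this shows
that even for sets of density `exp (-c m)` there are exponentially many (in `m`) more pairs with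
`n² + n'²` divisible by many of the primes than the number of possible values would allow.
-/

open Finset Filter Topology Real

namespace Pool.Agent.Results.MP_12a1af_nt.QuadraticSequences

/-- The number `r_A(s)` of ordered pairs `(a, b)` of elements of `A` with `a + b = s`. -/
noncomputable def rep (A : Set ℕ) (s : ℕ) : ℕ :=
  {p : ℕ × ℕ | p.1 ∈ A ∧ p.2 ∈ A ∧ p.1 + p.2 = s}.ncard

/-- `log x / log log x`. -/
noncomputable def psi (x : ℝ) : ℝ := log x / log (log x)

/-- The integers within `E` of a term of one of the sequences `α n² + γ`, `(α, γ) ∈ F`. -/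
def Near (F : Finset (ℝ × ℝ)) (E : ℝ) : Set ℕ :=
  {a | ∃ q ∈ F, ∃ n : ℕ, |(a : ℝ) - (q.1 * n ^ 2 + q.2)| ≤ E}

/-- At most `exp (psi x / 2000)` sequences `α n² + γ`, with `α ≥ exp (-psi x / 2000)`, `|γ| ≤ x`. -/
def Admissible (F : Finset (ℝ × ℝ)) (x : ℕ) : Prop :=
  (F.card : ℝ) ≤ exp (psi x / 2000) ∧ ∀ q ∈ F, exp (-(psi x / 2000)) ≤ q.1 ∧ |q.2| ≤ x

/-- At least `√x exp (-psi x / 2000)` elements `a ≤ x` of `A` are near the sequences of `F`. -/
def Many (F : Finset (ℝ × ℝ)) (A : Set ℕ) (x : ℕ) : Prop :=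
  √x * exp (-(psi x / 2000)) ≤ ({a : ℕ | a ∈ A ∧ a ≤ x ∧ a ∈ Near F (exp (psi x / 2000))}.ncard : ℝ)

lemma psi_nat_tendsto : Tendsto (fun X : ℕ => psi (X : ℝ)) atTop atTop :=
  Pool.Agent.H189.Q.psi_nat_tendsto

lemma one_scale : ∀ᶠ x : ℕ in atTop, ∀ F : Finset (ℝ × ℝ), Admissible F x → ∀ A : Set ℕ,
    Many F A x → ∃ s ≤ 2 * x, exp (psi x / 2000) ≤ rep A s := by
  classical
  filter_upwards [Pool.Agent.H189.Q.finite_version] with x hx F hF A hA
  have hc : ∀ y : ℝ, Pool.Agent.H189.Q.cc * Pool.Agent.H189.Q.psi y = psi y / 2000 := fun y => by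
    unfold Pool.Agent.H189.Q.cc Pool.Agent.H189.Q.psi psi
    ring
  rw [hc] at hx
  have hfin : {a : ℕ | a ∈ A ∧ a ≤ x ∧ a ∈ Near F (exp (psi x / 2000))}.Finite :=
    (Set.finite_Iic x).subset fun a ha => ha.2.1
  unfold Many at hA
  rw [Set.ncard_eq_toFinset_card _ hfin] at hA
  obtain ⟨t, ht⟩ := hx F hF.1 hF.2 hfin.toFinset (fun s hs => by
    rw [Set.Finite.mem_toFinset] at hs
    exact ⟨hs.2.1, hs.2.2⟩) hA
  have hpos : 0 < ((hfin.toFinset ×ˢ hfin.toFinset).filter (fun z => z.1 + z.2 = t)).card := by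
    have : (0 : ℝ) < (((hfin.toFinset ×ˢ hfin.toFinset).filter (fun z => z.1 + z.2 = t)).card : ℝ) :=
      lt_of_lt_of_le (exp_pos _) ht
    exact_mod_cast this
  refine ⟨t, ?_, ht.trans ?_⟩
  · obtain ⟨z, hz⟩ := Finset.card_pos.1 hpos
    rw [Finset.mem_filter, Finset.mem_product, Set.Finite.mem_toFinset,
      Set.Finite.mem_toFinset] at hz
    have h1 := hz.1.1.2.1
    have h2 := hz.1.2.2.1
    omega
  · unfold rep
    have hsub : (((hfin.toFinset ×ˢ hfin.toFinset).filter (fun z => z.1 + z.2 = t) :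
        Finset (ℕ × ℕ)) : Set (ℕ × ℕ)) ⊆ {p : ℕ × ℕ | p.1 ∈ A ∧ p.2 ∈ A ∧ p.1 + p.2 = t} := by
      intro z hz
      simp only [Finset.coe_filter, Finset.mem_product, Set.Finite.mem_toFinset,
        Set.mem_setOf_eq] at hz
      exact ⟨hz.1.1.1, hz.1.2.1, hz.2⟩
    have := Set.ncard_le_ncard hsub (Pool.Agent.H397R2.NS.rep_finite A t)
    rw [Set.ncard_coe_finset] at this
    exact_mod_cast this

lemma many_scales (A : Set ℕ) (h : ∃ᶠ x : ℕ in atTop, ∃ F, Admissible F x ∧ Many F A x) :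
    ∃ᶠ s : ℕ in atTop, exp (psi s / 4000) ≤ rep A s := by
  rw [frequently_atTop]
  intro N
  have hlogX : Tendsto (fun X : ℕ => log (X : ℝ)) atTop atTop :=
    tendsto_log_atTop.comp tendsto_natCast_atTop_atTop
  have hbig : ∀ᶠ x : ℕ in atTop, (N + 17 : ℝ) ≤ exp (psi x / 2000) := by
    have h1 : Tendsto (fun x : ℕ => exp (psi x / 2000)) atTop atTop :=
      tendsto_exp_atTop.comp (psi_nat_tendsto.atTop_div_const (by norm_num))
    exact h1.eventually (eventually_ge_atTop _)
  obtain ⟨x, ⟨F, hF, hM⟩, h1, h2, h3, h4⟩ := (h.and_eventually (one_scale.and (hbig.and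
    ((hlogX.eventually (eventually_ge_atTop (3 : ℝ))).and (eventually_ge_atTop 2))))).exists
  obtain ⟨s, hs, hrep⟩ := h1 F hF A hM
  have hs1 : (N : ℝ) + 16 ≤ s := by
    have h5 : rep A s ≤ s + 1 := Pool.Agent.H397R2.NS.rep_le A s
    have h6 : (rep A s : ℝ) ≤ s + 1 := by exact_mod_cast h5
    linarith
  refine ⟨s, ?_, le_trans (exp_le_exp.2 ?_) hrep⟩
  · have : (N : ℝ) ≤ s := by linarith
    exact_mod_cast this
  · have hN0 : (0 : ℝ) ≤ N := Nat.cast_nonneg _
    have hx2 : (2 : ℝ) ≤ x := by exact_mod_cast h4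
    have h5 : psi s ≤ 2 * psi x := by
      refine Pool.Agent.H397R2.NS.psi_le (by norm_num) h3 (by linarith) ?_
      calc log (s : ℝ) ≤ log ((x : ℝ) ^ 2) := by
            refine log_le_log (by linarith) ?_
            have : (s : ℝ) ≤ 2 * x := by exact_mod_cast hs
            nlinarith
        _ = 2 * log (x : ℝ) := by rw [log_pow]; norm_num
    linarith

lemma fixed_family (F : Finset (ℝ × ℝ)) (hF : ∀ q ∈ F, 0 < q.1) (A : Set ℕ) (hA : A.Infinite)
    (hnear : ∀ a ∈ A, a ∈ Near F (exp (psi a / 4000)))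
    (hgrow : ∃ᶠ n : ℕ in atTop, (Nat.nth (· ∈ A) (n - 1) : ℝ) ≤ n ^ 2 * exp (psi n / 4000)) :
    ∃ᶠ s : ℕ in atTop, exp (psi s / 4000) ≤ rep A s := by
  classical
  apply many_scales
  have hlogX : Tendsto (fun X : ℕ => log (X : ℝ)) atTop atTop :=
    tendsto_log_atTop.comp tendsto_natCast_atTop_atTop
  -- monotonicity of the radius
  have hmono : ∀ᶠ x : ℕ in atTop, ∀ a : ℕ, a ≤ x → psi a ≤ psi x := by
    have h1 : ∀ᶠ x : ℕ in atTop, ∀ a ∈ Finset.range 16, psi (a : ℝ) ≤ psi x := by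
      rw [Filter.eventually_all_finset]
      intro a _
      exact psi_nat_tendsto.eventually (eventually_ge_atTop _)
    filter_upwards [h1, hlogX.eventually (eventually_ge_atTop (3 : ℝ))] with x hx1 hx2 a hax
    by_cases h : a < 16
    · exact hx1 a (Finset.mem_range.mpr h)
    · have ha16 : (16 : ℝ) ≤ a := by exact_mod_cast (by omega : 16 ≤ a)
      have h2 := Pool.Agent.H397R2.NS.psi_le (s := (a : ℝ)) (L := log (x : ℝ)) (K := 1) le_rfl hx2
        ha16 (by
          rw [one_mul]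
          exact log_le_log (by linarith) (by exact_mod_cast hax))
      rwa [one_mul] at h2
  have hmono2 : ∀ᶠ x : ℕ in atTop, psi ((x + 1 : ℕ) : ℝ) ≤ 2 * psi x := by
    filter_upwards [hlogX.eventually (eventually_ge_atTop (3 : ℝ)), eventually_ge_atTop 16]
      with x hx1 hx2
    have hx16 : (16 : ℝ) ≤ x := by exact_mod_cast hx2
    refine Pool.Agent.H397R2.NS.psi_le (by norm_num) hx1 (by push_cast; linarith) ?_
    calc log ((x + 1 : ℕ) : ℝ) ≤ log ((x : ℝ) ^ 2) := by
          refine log_le_log (by positivity) ?_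
          push_cast
          nlinarith
      _ = 2 * log (x : ℝ) := by rw [log_pow]; norm_num
  have hadm : ∀ᶠ x : ℕ in atTop, Admissible F x := by
    have h1 : Tendsto (fun x : ℕ => exp (psi x / 2000)) atTop atTop :=
      tendsto_exp_atTop.comp (psi_nat_tendsto.atTop_div_const (by norm_num))
    have h2 : ∀ᶠ x : ℕ in atTop, ∀ q ∈ F, exp (-(psi x / 2000)) ≤ q.1 ∧ |q.2| ≤ x := by
      rw [Filter.eventually_all_finset]
      intro q hq
      have h3 := hF q hq
      filter_upwards [h1.eventually (eventually_ge_atTop (q.1⁻¹)),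
        tendsto_natCast_atTop_atTop.eventually (eventually_ge_atTop |q.2|)] with x hx1 hx2
      refine ⟨?_, hx2⟩
      rw [exp_neg]
      exact inv_le_of_inv_le₀ h3 hx1
    filter_upwards [h1.eventually (eventually_ge_atTop (F.card : ℝ)), h2] with x hx1 hx2
    exact ⟨hx1, hx2⟩
  have hinf : (Set.ofPred (· ∈ A)).Infinite := hA
  obtain ⟨X0, hX0⟩ := eventually_atTop.mp ((hmono.and hmono2).and hadm)
  have hpsi0 := psi_nat_tendsto.eventually (eventually_ge_atTop (0 : ℝ))
  obtain ⟨X1, hX1⟩ := eventually_atTop.mp hpsi0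
  rw [frequently_atTop]
  intro N
  obtain ⟨M0, hM0⟩ := eventually_atTop.mp hmono
  obtain ⟨n, hn, hn'⟩ := (frequently_atTop.mp hgrow) (max N (max X0 X1) + M0 + 1)
  set x : ℕ := Nat.nth (· ∈ A) (n - 1) with hx
  have hnx : n - 1 ≤ x := (Nat.nth_strictMono hinf).id_le (n - 1)
  have hb1 := le_max_left N (max X0 X1)
  have hb2 := le_max_right N (max X0 X1)
  have hb3 := le_max_left X0 X1
  have hb4 := le_max_right X0 X1
  obtain ⟨⟨h1, h2⟩, h3⟩ := hX0 x (by omega)
  have hpx := hX1 x (by omega)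
  refine ⟨x, by omega, F, h3, ?_⟩
  have hcard : n ≤ {a : ℕ | a ∈ A ∧ a ≤ x}.ncard := by
    have h5 : ((Finset.range n).image (Nat.nth (· ∈ A)) : Set ℕ) ⊆ {a : ℕ | a ∈ A ∧ a ≤ x} := by
      intro a ha
      rw [Finset.mem_coe, Finset.mem_image] at ha
      obtain ⟨k, hk, rfl⟩ := ha
      rw [Finset.mem_range] at hk
      refine ⟨Nat.nth_mem_of_infinite hinf k, ?_⟩
      exact (Nat.nth_strictMono hinf).monotone (by omega : k ≤ n - 1)
    have h6 := Set.ncard_le_ncard h5 ((Set.finite_Iic x).subset fun a ha => ha.2)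
    rw [Set.ncard_coe_finset, Finset.card_image_of_injective _ (Nat.nth_injective hinf),
      Finset.card_range] at h6
    exact h6
  have heq : {a : ℕ | a ∈ A ∧ a ≤ x} = {a : ℕ | a ∈ A ∧ a ≤ x ∧ a ∈ Near F (exp (psi x / 2000))} := by
    ext a
    constructor
    · rintro ⟨ha, hax⟩
      obtain ⟨q, hq, m, hm⟩ := hnear a ha
      refine ⟨ha, hax, q, hq, m, hm.trans (exp_le_exp.mpr ?_)⟩
      have := h1 a hax
      linarith
    · rintro ⟨ha, hax, _⟩
      exact ⟨ha, hax⟩
  unfold Many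
  rw [← heq]
  have hn2 : psi n ≤ 2 * psi x := by
    have h4 : psi n ≤ psi ((x + 1 : ℕ) : ℝ) := hM0 (x + 1) (by omega) n (by omega)
    exact h4.trans h2
  have hsq : √(x : ℝ) ≤ n * exp (psi x / 4000) := by
    rw [sqrt_le_left (by positivity), mul_pow, ← exp_nat_mul]
    refine hn'.trans (mul_le_mul_of_nonneg_left (exp_le_exp.mpr ?_) (by positivity))
    push_cast
    linarith
  calc √(x : ℝ) * exp (-(psi x / 2000)) ≤ (n * exp (psi x / 4000)) * exp (-(psi x / 2000)) :=
        mul_le_mul_of_nonneg_right hsq (exp_pos _).le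
    _ = n * exp (psi x / 4000 + -(psi x / 2000)) := by rw [exp_add]; ring
    _ ≤ n * 1 := by
        refine mul_le_mul_of_nonneg_left ?_ (Nat.cast_nonneg _)
        rw [exp_le_one_iff]
        linarith
    _ ≤ _ := by
        rw [mul_one]
        exact_mod_cast hcard

theorem result :
    -- 1. one scale
    (∀ᶠ x : ℕ in atTop, ∀ F : Finset (ℝ × ℝ), Admissible F x → ∀ A : Set ℕ, Many F A x →
      ∃ s ≤ 2 * x, exp (psi x / 2000) ≤ rep A s) ∧
    -- 2. infinitely many scales
    (∀ A : Set ℕ, (∃ᶠ x : ℕ in atTop, ∃ F, Admissible F x ∧ Many F A x) →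
      ∃ᶠ s : ℕ in atTop, exp (psi s / 4000) ≤ rep A s) ∧
    -- 3. a fixed finite family of sequences
    (∀ F : Finset (ℝ × ℝ), (∀ q ∈ F, 0 < q.1) → ∀ A : Set ℕ, A.Infinite →
      (∀ a ∈ A, a ∈ Near F (exp (psi a / 4000))) →
      (∃ᶠ n : ℕ in atTop, (Nat.nth (· ∈ A) (n - 1) : ℝ) ≤ n ^ 2 * exp (psi n / 4000)) →
      ∃ᶠ s : ℕ in atTop, exp (psi s / 4000) ≤ rep A s) ∧
    -- 4. sets with bounded representation function
    (∀ A : Set ℕ, (∃ K : ℕ, ∀ s, rep A s ≤ K) → ∀ᶠ x : ℕ in atTop, ∀ α γ : ℝ,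
      exp (-(psi x / 2000)) ≤ α → |γ| ≤ x →
      ({a : ℕ | a ∈ A ∧ a ≤ x ∧ ∃ n : ℕ, |(a : ℝ) - (α * n ^ 2 + γ)| ≤
        exp (psi x / 2000)}.ncard : ℝ) < √x * exp (-(psi x / 2000))) := by
  refine ⟨one_scale, many_scales, fixed_family, ?_⟩
  rintro A ⟨K, hK⟩
  have h1 : Tendsto (fun x : ℕ => exp (psi x / 2000)) atTop atTop :=
    tendsto_exp_atTop.comp (psi_nat_tendsto.atTop_div_const (by norm_num))
  filter_upwards [one_scale, h1.eventually (eventually_gt_atTop (K : ℝ)),
    h1.eventually (eventually_ge_atTop (1 : ℝ))] with x hx hxK hx1 α γ hα hγ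
  by_contra hcon
  push Not at hcon
  obtain ⟨s, _, hs⟩ := hx {(α, γ)} ⟨by simpa using hx1, by simpa using ⟨hα, hγ⟩⟩ A (by
    unfold Many
    refine hcon.trans (le_of_eq ?_)
    simp [Near])
  have : (rep A s : ℝ) ≤ K := by exact_mod_cast hK s
  linarith

end Pool.Agent.Results.MP_12a1af_nt.QuadraticSequences
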