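import Pool.Agent.H189.Q.Thin

/-!
# The Erdős–Turán problem (MP_12a1af_nt), Q1: thin bases and the mean of the representation function

`rep A n` is the number `r_A(n)` of ordered pairs `(a, b) ∈ A × A` with `a + b = n`; `c = 1369/1260`;
`logMean A N` is the logarithmic mean `(∑_{n ≤ N} r_A(n) / n) / log N`. Let `r_A(n) ≥ 1` for all large `n`.

1. If `r_A(n) ≤ 2 g + 1` for all large `n`, then `(μ - 2) (2 g - μ) ≥ c μ` for every limit point `μ` of
   the logarithmic means. So the mean of a bounded representation function is neither close to its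
   minimum `2` nor close to its maximum `2 g`.
2. If `m ≤ g + 1 - c / 2`, `(m - 2) (2 g - m) < c m` and the lower limit of the logarithmic means is at
   most `m`, then `r_A(n) ≥ 2 g + 2` for infinitely many `n`.
3. The same if `|A ∩ [0, x]| ≤ C √x` for all large `x` and `m = π C² / 4`. For example
   `|A ∩ [0, x]| ≤ 1.78 √x` for large `x` implies that `r_A(n) ≥ 10` for infinitely many `n`.
4. Every asymptotic basis of order two satisfies `limsup |A ∩ [0, x]| / √x ≥ √(8 / π)`. If the upper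
   limit is equal to `√(8 / π)`, then `r_A` is unbounded: Q1 holds for the thinnest bases.
5. If `a_n ≤ C n²` for all large `n`, `m = π / (4 C) ≥ g + 1 - c / 2` and `(m - 2) (2 g - m) < c m`, then
   `r_A(n) ≥ 2 g + 2` for infinitely many `n`.

Method: the variance law of `Pool/Agent/TH854/ET/P3.lean` (built on the starting file
`EightRepresentations`): for all real `λ` the logarithmic mean of `(r_A(n) - λ)² - c r_A(n)` is at least
`-o(1)`.
-/

set_option autoImplicit false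

open Finset

namespace Pool.Agent.Results.MP_12a1af_nt.ThinBases

/-- `r_A(n)`: the number of ordered pairs of elements of `A` with sum `n` -/
noncomputable def rep (A : Set ℕ) (n : ℕ) : ℕ :=
  {p : ℕ × ℕ | p.1 ∈ A ∧ p.2 ∈ A ∧ p.1 + p.2 = n}.ncard

/-- the logarithmic mean of `r_A` up to `N` -/
noncomputable def logMean (A : Set ℕ) (N : ℕ) : ℝ :=
  (∑ n ∈ Icc 1 N, (rep A n : ℝ) / n) / Real.log N

/-- the number of elements of `A` in `[0, x]` -/
noncomputable def count (A : Set ℕ) (x : ℕ) : ℕ := {a : ℕ | a ∈ A ∧ a ≤ x}.ncard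

/-- asymptotic bases of order two -/
def IsBasis (A : Set ℕ) : Prop := ∃ n₀, ∀ n ≥ n₀, 1 ≤ rep A n

lemma left_branch (g : ℕ) (m : ℝ) (hm : m ≤ g + 1 - 1369 / 2520)
    (hmg : (m - 2) * (2 * g - m) < 1369 / 1260 * m) (A : Set ℕ) (hA : IsBasis A)
    (h : ∀ η : ℝ, 0 < η → ∀ N₀ : ℕ, ∃ N ≥ N₀, logMean A N ≤ m + η) :
    ∀ n₁ : ℕ, ∃ n ≥ n₁, 2 * g + 2 ≤ rep A n := by
  obtain ⟨n₀, hn₀⟩ := hA
  intro n₁
  by_contra hcon
  push Not at hcon
  set δ : ℝ := (1369 / 1260 * m - (m - 2) * (2 * g - m)) / 2 with hδ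
  have hδ0 : 0 < δ := by rw [hδ]; linarith
  obtain ⟨N₀, hN₀⟩ := Pool.Agent.H189.Q.range g (max n₀ n₁) A
    (fun n hn => hn₀ n (le_trans (le_max_left _ _) hn))
    (fun n hn => by
      have := hcon n (le_trans (le_max_right _ _) hn)
      show rep A n ≤ 2 * g + 1
      omega) δ hδ0
  have hg0 : (0 : ℝ) ≤ g := Nat.cast_nonneg g
  set η : ℝ := min 1 (δ / (2 * (2 * g + 3))) with hη
  have hη0 : 0 < η := lt_min one_pos (by positivity)
  obtain ⟨N, hN, hN1⟩ := h η hη0 (max N₀ 1)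
  have h1 := hN₀ N (le_trans (le_max_left _ _) hN)
  have h2 := Pool.Agent.H189.Q.lmean_nonneg A (le_trans (le_max_right _ _) hN)
  have h3 : Pool.Agent.H189.Q.lmean A N ≤ m + η := hN1
  set μ := Pool.Agent.H189.Q.lmean A N with hμ
  have hη1 : η ≤ 1 := min_le_left _ _
  have hη2 : η * (2 * g + 3) ≤ δ / 2 := by
    have := min_le_right (1 : ℝ) (δ / (2 * (2 * g + 3)))
    rw [← hη, le_div_iff₀ (by positivity)] at this
    linarith
  have key : (μ - 2) * (2 * g - μ) - 1369 / 1260 * μ =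
      -(2 * δ) + (μ - m) * (2 * g + 2 - 1369 / 1260 - m - μ) := by rw [hδ]; ring
  have h4 : (μ - m) * (2 * g + 2 - 1369 / 1260 - m - μ) ≤ δ / 2 := by
    rcases le_total μ m with hle | hle
    · have h5 : 0 ≤ 2 * g + 2 - 1369 / 1260 - m - μ := by linarith
      have := mul_nonneg (sub_nonneg.2 hle) h5
      linarith
    · have h5 : 2 * g + 2 - 1369 / 1260 - m - μ ≤ 2 * g + 3 := by linarith
      calc (μ - m) * (2 * g + 2 - 1369 / 1260 - m - μ) ≤ (μ - m) * (2 * g + 3) :=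
            mul_le_mul_of_nonneg_left h5 (sub_nonneg.2 hle)
        _ ≤ η * (2 * g + 3) := mul_le_mul_of_nonneg_right (by linarith) (by positivity)
        _ ≤ δ / 2 := hη2
  linarith

lemma right_branch (g : ℕ) (m : ℝ) (hm : g + 1 - 1369 / 2520 ≤ m)
    (hmg : (m - 2) * (2 * g - m) < 1369 / 1260 * m) (A : Set ℕ) (hA : IsBasis A)
    (h : ∀ η : ℝ, 0 < η → ∀ N₀ : ℕ, ∃ N ≥ N₀, m - η ≤ logMean A N) :
    ∀ n₁ : ℕ, ∃ n ≥ n₁, 2 * g + 2 ≤ rep A n := by
  obtain ⟨n₀, hn₀⟩ := hA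
  intro n₁
  by_contra hcon
  push Not at hcon
  set δ : ℝ := (1369 / 1260 * m - (m - 2) * (2 * g - m)) / 2 with hδ
  have hδ0 : 0 < δ := by rw [hδ]; linarith
  obtain ⟨N₀, hN₀⟩ := Pool.Agent.H189.Q.range g (max n₀ n₁) A
    (fun n hn => hn₀ n (le_trans (le_max_left _ _) hn))
    (fun n hn => by
      have := hcon n (le_trans (le_max_right _ _) hn)
      show rep A n ≤ 2 * g + 1
      omega) δ hδ0
  have hg0 : (0 : ℝ) ≤ g := Nat.cast_nonneg g
  have hm0 : 0 < m := by linarith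
  set η : ℝ := δ / (2 * (2 * m + 2)) with hη
  have hη0 : 0 < η := by positivity
  obtain ⟨N, hN, hN1⟩ := h η hη0 (max N₀ 1)
  have h1 := hN₀ N (le_trans (le_max_left _ _) hN)
  have h3 : m - η ≤ Pool.Agent.H189.Q.lmean A N := hN1
  set μ := Pool.Agent.H189.Q.lmean A N with hμ
  have hη2 : η * (2 * m + 2) = δ / 2 := by
    rw [hη]
    field_simp
  have key : (μ - 2) * (2 * g - μ) - 1369 / 1260 * μ =
      -(2 * δ) + (μ - m) * (2 * g + 2 - 1369 / 1260 - m - μ) := by rw [hδ]; ring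
  have h4 : (μ - m) * (2 * g + 2 - 1369 / 1260 - m - μ) ≤ δ / 2 := by
    rcases le_total m μ with hle | hle
    · have h5 : 0 ≤ m + μ + 1369 / 1260 - 2 * g - 2 := by linarith
      have := mul_nonneg (sub_nonneg.2 hle) h5
      linarith
    · have h5 : m + μ + 1369 / 1260 - 2 * g - 2 ≤ 2 * m + 2 := by linarith
      calc (μ - m) * (2 * g + 2 - 1369 / 1260 - m - μ) =
            (m - μ) * (m + μ + 1369 / 1260 - 2 * g - 2) := by ring
        _ ≤ (m - μ) * (2 * m + 2) := mul_le_mul_of_nonneg_left h5 (sub_nonneg.2 hle)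
        _ ≤ η * (2 * m + 2) := mul_le_mul_of_nonneg_right (by linarith) (by positivity)
        _ = δ / 2 := hη2
  linarith

lemma cut_le_count (A : Set ℕ) (x : ℕ) : (Pool.Agent.W247.ET.cut A x).card ≤ count A x := by
  unfold count
  rw [← Set.ncard_coe_finset]
  refine Set.ncard_le_ncard ?_ ((Set.finite_Iic x).subset fun a ha => ha.2)
  intro a ha
  have := Pool.Agent.W962.ET.mem_cut.1 (Finset.mem_coe.1 ha)
  exact ⟨this.2, this.1.2⟩

lemma bounded_of (A : Set ℕ) (K n₁ : ℕ) (h : ∀ n ≥ n₁, rep A n ≤ K) : ∀ n, rep A n ≤ n₁ + K := by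
  intro n
  by_cases hn : n₁ ≤ n
  · exact (h n hn).trans (by omega)
  · have : rep A n ≤ n + 1 := Pool.Agent.TH854.ET.r_le_succ A n
    omega

lemma thin_case (g : ℕ) (C : ℝ) (hC : 0 < C) (hm : Real.pi * C ^ 2 / 4 ≤ g + 1 - 1369 / 2520)
    (hmg : (Real.pi * C ^ 2 / 4 - 2) * (2 * g - Real.pi * C ^ 2 / 4) <
      1369 / 1260 * (Real.pi * C ^ 2 / 4)) (A : Set ℕ) (hA : IsBasis A)
    (h : ∃ x₀, ∀ x ≥ x₀, (count A x : ℝ) ≤ C * √x) :
    ∀ n₁ : ℕ, ∃ n ≥ n₁, 2 * g + 2 ≤ rep A n := by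
  intro n₁
  by_contra hcon
  push Not at hcon
  obtain ⟨x₀, hx₀⟩ := h
  have hbd := bounded_of A (2 * g + 1) n₁ fun n hn => by
    have := hcon n hn
    omega
  have := left_branch g _ hm hmg A hA (fun η hη N₀ => by
    obtain ⟨N₂, hN₂⟩ := Pool.Agent.H189.Q.thin_mean A C hC x₀
      (fun x hx => le_trans (by exact_mod_cast cut_le_count A x) (hx₀ x hx)) η hη
    exact ⟨max N₀ N₂, le_max_left _ _, hN₂ _ (le_max_right _ _)⟩) n₁
  obtain ⟨n, hn, h2⟩ := this
  exact absurd (hcon n hn) (not_lt.2 h2)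

lemma sqrt_const : √(8 / Real.pi) ≤ 8 / 5 := by
  rw [Real.sqrt_le_left (by norm_num), div_le_iff₀ Real.pi_pos]
  have := Real.pi_gt_d2
  linarith

theorem result :
    -- 1. the range of the logarithmic mean
    (∀ (g : ℕ) (A : Set ℕ), IsBasis A → (∃ n₁, ∀ n ≥ n₁, rep A n ≤ 2 * g + 1) → ∀ ε : ℝ, 0 < ε →
      ∃ N₀ : ℕ, ∀ N ≥ N₀,
        1369 / 1260 * logMean A N - ε ≤ (logMean A N - 2) * (2 * g - logMean A N)) ∧
    -- 2. bases with small mean
    (∀ (g : ℕ) (m : ℝ), m ≤ g + 1 - 1369 / 2520 → (m - 2) * (2 * g - m) < 1369 / 1260 * m →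
      ∀ A : Set ℕ, IsBasis A → (∀ η : ℝ, 0 < η → ∀ N₀ : ℕ, ∃ N ≥ N₀, logMean A N ≤ m + η) →
      ∀ n₁ : ℕ, ∃ n ≥ n₁, 2 * g + 2 ≤ rep A n) ∧
    -- 3. thin bases
    (∀ (g : ℕ) (C : ℝ), 0 < C → Real.pi * C ^ 2 / 4 ≤ g + 1 - 1369 / 2520 →
      (Real.pi * C ^ 2 / 4 - 2) * (2 * g - Real.pi * C ^ 2 / 4) <
        1369 / 1260 * (Real.pi * C ^ 2 / 4) →
      ∀ A : Set ℕ, IsBasis A → (∃ x₀, ∀ x ≥ x₀, (count A x : ℝ) ≤ C * √x) →
      ∀ n₁ : ℕ, ∃ n ≥ n₁, 2 * g + 2 ≤ rep A n) ∧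
    (∀ A : Set ℕ, IsBasis A → (∃ x₀, ∀ x ≥ x₀, (count A x : ℝ) ≤ 1.78 * √x) →
      ∀ n₁ : ℕ, ∃ n ≥ n₁, 10 ≤ rep A n) ∧
    -- 4. the thinnest bases
    (∀ (A : Set ℕ) (C : ℝ), IsBasis A → (∃ x₀, ∀ x ≥ x₀, (count A x : ℝ) ≤ C * √x) →
      √(8 / Real.pi) ≤ C) ∧
    (∀ A : Set ℕ, IsBasis A →
      (∀ η : ℝ, 0 < η → ∃ x₀, ∀ x ≥ x₀, (count A x : ℝ) ≤ (√(8 / Real.pi) + η) * √x) →
      ∀ K : ℕ, ∃ n, K < rep A n) ∧
    -- 5. bases with large mean
    (∀ (g : ℕ) (C : ℝ), 0 < C → g + 1 - 1369 / 2520 ≤ Real.pi / (4 * C) →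
      (Real.pi / (4 * C) - 2) * (2 * g - Real.pi / (4 * C)) < 1369 / 1260 * (Real.pi / (4 * C)) →
      ∀ A : Set ℕ, IsBasis A →
      (∃ n₁, ∀ n ≥ n₁, (Nat.nth (fun a => a ∈ A) n : ℝ) ≤ C * ((n : ℝ) + 1) ^ 2) →
      ∀ n₁ : ℕ, ∃ n ≥ n₁, 2 * g + 2 ≤ rep A n) := by
  refine ⟨?_, left_branch, thin_case, ?_, ?_, ?_, ?_⟩
  · rintro g A ⟨n₀, h0⟩ ⟨n₁, h1⟩ ε hε
    exact Pool.Agent.H189.Q.range g (max n₀ n₁) A (fun n hn => h0 n (le_trans (le_max_left _ _) hn))
      (fun n hn => h1 n (le_trans (le_max_right _ _) hn)) ε hε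
  · intro A hA h n₁
    refine thin_case 4 1.78 (by norm_num) ?_ ?_ A hA h n₁
    · have := Real.pi_lt_d2
      norm_num
      linarith
    · have h1 := Real.pi_gt_d6
      have h2 := Real.pi_lt_d6
      norm_num
      nlinarith
  · intro A C hA h
    by_contra hcon
    push Not at hcon
    obtain ⟨x₀, hx₀⟩ := h
    obtain ⟨n₀, h0⟩ := hA
    set C' : ℝ := max C 1 with hC'
    have hC'0 : 0 < C' := lt_of_lt_of_le one_pos (le_max_right _ _)
    have hlt : C' < √(8 / Real.pi) := by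
      refine max_lt hcon ?_
      rw [Real.lt_sqrt (by norm_num), one_pow, lt_div_iff₀ Real.pi_pos]
      have := Real.pi_lt_d2
      linarith
    have hm2 : Real.pi * C' ^ 2 / 4 < 2 := by
      have h1 : C' ^ 2 < 8 / Real.pi := by
        rw [← Real.lt_sqrt hC'0.le]
        exact hlt
      rw [lt_div_iff₀ Real.pi_pos] at h1
      linarith
    have hcount' : ∀ x ≥ x₀, ((Pool.Agent.W247.ET.cut A x).card : ℝ) ≤ C' * √x := fun x hx =>
      le_trans (by exact_mod_cast cut_le_count A x) ((hx₀ x hx).trans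
        (mul_le_mul_of_nonneg_right (le_max_left _ _) (Real.sqrt_nonneg _)))
    set η : ℝ := (2 - Real.pi * C' ^ 2 / 4) / 4 with hη
    have hη0 : 0 < η := by rw [hη]; linarith
    obtain ⟨N₁, h1⟩ := Pool.Agent.H189.Q.thin_mean A C' hC'0 x₀ hcount' η hη0
    obtain ⟨N₂, h2⟩ := Pool.Agent.H189.Q.basis_lmean A n₀ h0 C' hC'0 x₀ hcount' η hη0
    have h3 := h1 _ (le_max_left N₁ N₂)
    have h4 := h2 _ (le_max_right N₁ N₂)
    rw [hη] at h3 h4
    linarith
  · intro A hA h K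
    by_contra hcon
    push Not at hcon
    have hbd : ∀ n, rep A n ≤ 0 + K := fun n => by
      have := hcon n
      omega
    obtain ⟨n, _, hn⟩ := left_branch (K + 2) 2 (by
        have : (0 : ℝ) ≤ K := Nat.cast_nonneg K
        push_cast
        linarith) (by norm_num) A hA (fun η hη N₀ => by
      set η' : ℝ := min 1 (η / 8) with hη'
      have hη'0 : 0 < η' := lt_min one_pos (by positivity)
      obtain ⟨x₀, hx₀⟩ := h η' hη'0
      have hsq : √(8 / Real.pi) ^ 2 = 8 / Real.pi := Real.sq_sqrt (by positivity)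
      have hs0 : 0 ≤ √(8 / Real.pi) := Real.sqrt_nonneg _
      obtain ⟨N₂, hN₂⟩ := Pool.Agent.H189.Q.thin_mean A (√(8 / Real.pi) + η') (by linarith) x₀
        (fun x hx => le_trans (by exact_mod_cast cut_le_count A x) (hx₀ x hx)) (η / 2) (by positivity)
      refine ⟨max N₀ N₂, le_max_left _ _, (hN₂ _ (le_max_right _ _)).trans ?_⟩
      have h1 : Real.pi * (√(8 / Real.pi) + η') ^ 2 / 4 ≤ 2 + η / 2 := by
        have h2 : Real.pi * (√(8 / Real.pi) + η') ^ 2 / 4 =
            2 + Real.pi / 4 * (2 * √(8 / Real.pi) + η') * η' := by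
          have : Real.pi * (√(8 / Real.pi) + η') ^ 2 / 4 = Real.pi * √(8 / Real.pi) ^ 2 / 4 +
            Real.pi / 4 * (2 * √(8 / Real.pi) + η') * η' := by ring
          rw [this, hsq]
          field_simp
          ring
        rw [h2]
        have h3 := sqrt_const
        have h4 : η' ≤ 1 := min_le_left _ _
        have h5 : η' ≤ η / 8 := min_le_right _ _
        have h6 : Real.pi / 4 ≤ 4 / 5 := by
          have := Real.pi_lt_d2
          linarith
        have h7 : Real.pi / 4 * (2 * √(8 / Real.pi) + η') ≤ 4 := by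
          calc Real.pi / 4 * (2 * √(8 / Real.pi) + η') ≤ 4 / 5 * (2 * (8 / 5) + 1) := by
                refine mul_le_mul h6 (by linarith) (by positivity) (by norm_num)
            _ ≤ 4 := by norm_num
        nlinarith
      linarith) 0
    have := hcon n
    omega
  · intro g C hC hm hmg A hA h n₁
    by_contra hcon
    push Not at hcon
    have hbd := bounded_of A (2 * g + 1) n₁ fun n hn => by
      have := hcon n hn
      omega
    have hinf : A.Infinite := by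
      obtain ⟨n₀, hn₀⟩ := hA
      intro hfin
      obtain ⟨B, hB⟩ := hfin.bddAbove
      have h1 := hn₀ (max n₀ (2 * B + 1)) (le_max_left _ _)
      have h2 : ({p : ℕ × ℕ | p.1 ∈ A ∧ p.2 ∈ A ∧ p.1 + p.2 = max n₀ (2 * B + 1)}).Nonempty := by
        by_contra h3
        rw [Set.not_nonempty_iff_eq_empty] at h3
        unfold rep at h1
        rw [h3, Set.ncard_empty] at h1
        omega
      obtain ⟨p, hp1, hp2, hp3⟩ := h2
      have h4 := hB hp1
      have h5 := hB hp2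
      have h6 := le_max_right n₀ (2 * B + 1)
      omega
    obtain ⟨n₂, hn₂⟩ := h
    obtain ⟨D, N₀, hD⟩ := Pool.Agent.TH854.ET.log_mean A hinf _ (n₂ + 1) (by omega) hbd C hC
      (fun i hi => hn₂ i (by omega))
    have := right_branch g _ hm hmg A hA (fun η hη N₁ => by
      obtain ⟨N₃, hN₃⟩ := Filter.eventually_atTop.1
        ((Real.tendsto_log_atTop.comp tendsto_natCast_atTop_atTop).eventually_ge_atTop
          (|D| / η + 1))
      refine ⟨max N₁ (max N₀ N₃), le_max_left _ _, ?_⟩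
      set N := max N₁ (max N₀ N₃) with hN
      have h1 : |D| / η + 1 ≤ Real.log N := hN₃ N (le_trans (le_max_right _ _) (le_max_right _ _))
      have h2 := hD N (le_trans (le_max_left _ _) (le_max_right _ _))
      have h3 : 0 < Real.log N := by
        have : 0 ≤ |D| / η := by positivity
        linarith
      unfold logMean
      rw [le_div_iff₀ h3]
      have h4 : |D| ≤ η * Real.log N := by
        have : |D| / η ≤ Real.log N := by linarith
        rw [div_le_iff₀ hη] at this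
        linarith
      have h5 := le_abs_self D
      have h6 : ∑ n ∈ Icc 1 N, (rep A n : ℝ) / n =
        ∑ n ∈ Icc 1 N, (Pool.Agent.W247.ET.r A n : ℝ) / n := rfl
      rw [h6]
      linarith) n₁
    obtain ⟨n, hn, h2⟩ := this
    exact absurd (hcon n hn) (not_lt.2 h2)

end Pool.Agent.Results.MP_12a1af_nt.ThinBases
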