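import Pool.Agent.Helper520_bf.Fin

/-!
# The Erdős–Turán problem (MP_12a1af_nt): sets near the values of forms of critical degree

`rep A n` is the number `r_A(n)` of ordered pairs of elements of `A` with sum `n`, and `upto B N` is the number of the
elements `≤ N` of `B`. A form `F` of degree `2 m` in `m` variables has about `√N` values up to `N` at points of height
`O(N ^ (1 / (2 m)))`: this is the critical growth of the problem. For real `α > 0` and `C > 0` and a natural number `W` let
`Val F α C W` be the set of all natural numbers `a` within `W` of a number `α F(x)`, where `x ∈ ℤ^m` and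
`|x_i| ≤ C (a + 1) ^ (1 / (2 m))` for all `i`; if `F` is positive definite then the second condition is omitted.

For a prime `p` let `N_p` be the number of the solutions of `F(x) = F(y)` modulo `p`, `x, y ∈ (ℤ/p)^m`, and let
`vv F p = N_p / p ^ (2 m - 1) - 1 ≥ 0`. The form `F` is called biased if the sum of `vv F p` over the primes
`p ≡ 1 (mod 4 m)` diverges.

The theorem: let `F₁, ..., F_k` be forms with integral coefficients, `F_j` of degree `2 m_j` in `m_j ≥ 1` variables, each of
which is not irreducible over the field of algebraic numbers, or biased. Let `V` be the union of the sets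
`Val F_j α_j C_j W_j`.

1. For all `g` and `ε > 0` there is an `N₀` such that for all `N ≥ N₀` and all sets `A` with `r_A ≤ g` at most `ε √N`
   elements `≤ N` of `A` are in `V`.
2. If for some `δ > 0` the set `A` has at least `δ √N` elements `≤ N` in `V` for infinitely many `N`, then `r_A` is
   unbounded.
3. If `A` is an asymptotic basis of order 2 and for some `δ > 0` and infinitely many `N` at least the proportion `δ` of
   the elements `≤ N` of `A` is in `V`, then `r_A` is unbounded.

The proof: by the theorem of Lang and Weil (in the mean over the primes, for the irreducible components over number fields)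
and the prime ideal theorem (starting files) a form which is reducible over the algebraic numbers is biased. For a biased
form there are pairwise coprime moduli `Q_1, ..., Q_J` such that the values of `F` are badly distributed modulo `Q_j`; since
`F` represents `n` and `-n` modulo `Q_j` equally often, there are `K` times more pairs of points with
`Q_j ∣ F(x) + F(y)` than expected, and by Bessel's inequality this remains true for a given dense set of points and one of
the moduli. Their sums are near multiples of `α Q_j`, and the number of these is too small if `r_A ≤ g`.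
-/

set_option autoImplicit false

namespace Pool.Agent.Results.MP_12a1af_nt.ValuesOfForms

open MvPolynomial Filter Pool.Agent.Helper520_bf

/-- the natural numbers `a` within `W` of `α F(x)` for an integral point `x` with `|x_i| ≤ C (a + 1) ^ (1 / (2 m))`; if `F` is
positive definite, for any integral point `x` -/
def Val {m : ℕ} (F : MvPolynomial (Fin m) ℤ) (α C : ℝ) (W : ℕ) : Set ℕ :=
  {a | ∃ x : Fin m → ℤ, (PosDef F ∨ ∀ i, |((x i : ℤ) : ℝ)| ≤ C * ((a : ℝ) + 1) ^ (1 / (2 * m) : ℝ)) ∧
    |(a : ℝ) - α * ((aeval x F : ℤ) : ℝ)| ≤ W}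

lemma val_subset {m : ℕ} (hm : 0 < m) {F : MvPolynomial (Fin m) ℤ} (hF : F.IsHomogeneous (2 * m)) {α C : ℝ} (hα : 0 < α)
    (hC : 0 < C) (W : ℕ) : ∃ C' : ℝ, 0 < C' ∧ Val F α C W ⊆ Vals F α C' W := by
  by_cases hpos : PosDef F
  · obtain ⟨C', hC', hsub⟩ := near_subset_vals hm hF hpos α hα W
    exact ⟨C', hC', fun a ⟨x, _, hx⟩ => hsub ⟨x, hx⟩⟩
  · exact ⟨C, hC, fun a ⟨x, hx, hxa⟩ => ⟨x, hx.resolve_left hpos, hxa⟩⟩

theorem result (k : ℕ) (m : Fin k → ℕ) (F : ∀ j, MvPolynomial (Fin (m j)) ℤ) (α C : Fin k → ℝ) (W : Fin k → ℕ)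
    (hm : ∀ j, 0 < m j) (hF : ∀ j, (F j).IsHomogeneous (2 * m j)) (hα : ∀ j, 0 < α j) (hC : ∀ j, 0 < C j)
    (h : ∀ j, ¬ Irreducible (MvPolynomial.map (algebraMap ℤ (AlgebraicClosure ℚ)) (F j)) ∨ Biased (F j)) :
    (∀ (g : ℕ) (ε : ℝ), 0 < ε → ∃ N₀ : ℕ, ∀ N, N₀ ≤ N → ∀ A : Set ℕ, (∀ n, rep A n ≤ g) →
      (upto (A ∩ ⋃ j, Val (F j) (α j) (C j) (W j)) N : ℝ) ≤ ε * Real.sqrt N) ∧
    (∀ (A : Set ℕ) (δ : ℝ), 0 < δ →
      (∃ᶠ N : ℕ in atTop, δ * Real.sqrt N ≤ upto (A ∩ ⋃ j, Val (F j) (α j) (C j) (W j)) N) → ∀ r, ∃ n, r < rep A n) ∧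
    (∀ A : Set ℕ, (∃ n₀ : ℕ, ∀ n, n₀ ≤ n → ∃ a ∈ A, ∃ b ∈ A, a + b = n) → ∀ δ : ℝ, 0 < δ →
      (∃ᶠ N : ℕ in atTop, δ * (upto A N : ℝ) ≤ upto (A ∩ ⋃ j, Val (F j) (α j) (C j) (W j)) N) → ∀ r, ∃ n, r < rep A n) := by
  choose C' hC' hsub using fun j => val_subset (hm j) (hF j) (hα j) (hC j) (W j)
  have hb : ∀ j, Biased (F j) := fun j => (h j).elim (fun h => reducible_div (hm j) (hF j) h) id
  have key : ∀ (g : ℕ) (ε : ℝ), 0 < ε → ∃ N₀ : ℕ, ∀ N, N₀ ≤ N → ∀ A : Set ℕ, (∀ n, rep A n ≤ g) →
      (upto (A ∩ ⋃ j, Val (F j) (α j) (C j) (W j)) N : ℝ) ≤ ε * Real.sqrt N := by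
    intro g ε hε
    obtain ⟨N₀, hN₀⟩ := family_all k m F α C' W (fun j => ⟨hm j, hF j, hb j, hα j, hC' j⟩) g ε hε
    refine ⟨N₀, fun N hN A hA => le_trans ?_ (hN₀ N hN A hA)⟩
    exact_mod_cast upto_mono (Set.inter_subset_inter_right A (Set.iUnion_mono hsub)) N
  refine ⟨key, fun A δ hδ hfr r => ?_, fun A hA δ hδ hfr r => ?_⟩
  · by_contra hcon
    push Not at hcon
    obtain ⟨N₀, hN₀⟩ := key r (δ / 2) (by positivity)
    obtain ⟨N, hN, hN2⟩ := (hfr.and_eventually (eventually_ge_atTop (max N₀ 1))).exists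
    have e2 := hN₀ N ((le_max_left _ _).trans hN2) A hcon
    have e3 : (0 : ℝ) < Real.sqrt N := by
      refine Real.sqrt_pos.2 ?_
      exact_mod_cast (le_max_right _ _).trans hN2
    nlinarith
  · exact et_of_bound _ key A hA δ hδ hfr r

end Pool.Agent.Results.MP_12a1af_nt.ValuesOfForms
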